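import Mathlib

/-!
Rigidity of runs for the recursion `K (t+1) = ± (2 K t - (4 t + 3))`.
-/

set_option autoImplicit false

namespace Pool.Agent.P.MP_b0fa34_co

/-- The sign attached to a side. -/
def sg (c : Bool) : ℤ := if c then 1 else -1

lemma sg_cases (c : Bool) : sg c = 1 ∨ sg c = -1 := by
  cases c <;> simp [sg]

lemma abs_sg_mul (c : Bool) (y : ℚ) : |(sg c : ℚ) * y| = |y| := by
  rcases sg_cases c with h | h <;> simp [h]

lemma abs_sg_mul_int (c : Bool) (y : ℤ) : |sg c * y| = |y| := by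
  rcases sg_cases c with h | h <;> simp [h]

lemma sg_inj {c d : Bool} (h : sg c = sg d) : c = d := by
  cases c <;> cases d <;> simp_all [sg]

/-- Doubling: `e (i+1) ≥ 2 e i` gives `e n ≥ 2^n e 0`. -/
lemma dbl {F : Type} [Field F] [LinearOrder F] [IsStrictOrderedRing F] (e : ℕ → F) (n : ℕ)
    (h : ∀ i, i < n → 2 * e i ≤ e (i + 1)) : 2 ^ n * e 0 ≤ e n := by
  induction n with
  | zero => simp
  | succ n ih =>
    have h1 := ih (fun i hi => h i (by omega))
    have h2 := h n (by omega)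
    rw [pow_succ]
    nlinarith

lemma dbl_int (e : ℕ → ℤ) (n : ℕ)
    (h : ∀ i, i < n → 2 * e i ≤ e (i + 1)) : 2 ^ n * e 0 ≤ e n := by
  induction n with
  | zero => simp
  | succ n ih =>
    have h1 := ih (fun i hi => h i (by omega))
    have h2 := h n (by omega)
    rw [pow_succ]
    nlinarith

/-- The offset of the orbit from the line of slope `x`. -/
def rho (K : ℕ → ℤ) (x : ℕ → ℚ) (t : ℕ) : ℚ := (K t : ℚ) - (4 * (t : ℚ) + 3) * x t

/-- A run of length `J` starting at `t`. -/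
structure Run (K : ℕ → ℤ) (b : ℕ → Bool) (x : ℕ → ℚ) (t J : ℕ) : Prop where
  x0 : ∀ i, i ≤ J → 0 ≤ x (t + i)
  x1 : ∀ i, i ≤ J → x (t + i) ≤ 1
  r5 : ∀ i, i ≤ J → |rho K x (t + i)| ≤ 5
  xs : ∀ i, i < J → x (t + i + 1) = (sg (b (t + i)) : ℚ) * (2 * x (t + i) - 1)
  ks : ∀ i, i < J → K (t + i + 1) = sg (b (t + i)) * (2 * K (t + i) - (4 * ((t + i : ℕ) : ℤ) + 3))
  k1 : ∀ i, i ≤ J → K (t + i) ≤ 4 * ((t + i : ℕ) : ℤ) + 3

lemma Run.shift {K : ℕ → ℤ} {b : ℕ → Bool} {x : ℕ → ℚ} {t J : ℕ} (h : Run K b x t J)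
    (a n : ℕ) (ha : a + n ≤ J) : Run K b x (t + a) n where
  x0 := fun i hi => by rw [add_assoc]; exact h.x0 _ (by omega)
  x1 := fun i hi => by rw [add_assoc]; exact h.x1 _ (by omega)
  r5 := fun i hi => by rw [add_assoc]; exact h.r5 _ (by omega)
  xs := fun i hi => by rw [add_assoc t a i]; exact h.xs _ (by omega)
  ks := fun i hi => by rw [add_assoc t a i]; exact h.ks _ (by omega)
  k1 := fun i hi => by rw [add_assoc t a i]; exact h.k1 _ (by omega)

lemma Run.rs {K : ℕ → ℤ} {b : ℕ → Bool} {x : ℕ → ℚ} {t J : ℕ} (h : Run K b x t J)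
    (i : ℕ) (hi : i < J) :
    rho K x (t + i + 1) = (sg (b (t + i)) : ℚ) * (2 * rho K x (t + i)) - 4 * x (t + i + 1) := by
  have h1 := h.xs i hi
  have h2 := h.ks i hi
  unfold rho
  rw [h2, h1]
  push_cast
  ring

lemma one_le_abs_of_int {y : ℚ} {z : ℤ} (hz : y = z) (hy : y ≠ 0) : 1 ≤ |y| := by
  subst hz
  have : z ≠ 0 := by simpa using hy
  have h2 : (1 : ℤ) ≤ |z| := Int.one_le_abs this
  exact_mod_cast h2

/-- Two runs with the same signs and small denominators have the same slope. -/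
lemma slope_eq {K : ℕ → ℤ} {b : ℕ → Bool} {x : ℕ → ℚ} {t u n : ℕ}
    (ht : Run K b x t n) (hu : Run K b x u n) (hb : ∀ i, i < n → b (t + i) = b (u + i))
    (hn : (x t).den * (x u).den < 2 ^ n) : x t = x u := by
  by_contra hne
  have h1 := dbl (fun i => |x (t + i) - x (u + i)|) n (fun i hi => by
    have e1 := ht.xs i hi
    have e2 := hu.xs i hi
    simp only [← add_assoc]
    rw [e1, e2, hb i hi, ← mul_sub, abs_sg_mul]
    rw [show 2 * x (t + i) - 1 - (2 * x (u + i) - 1) = 2 * (x (t + i) - x (u + i)) by ring,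
      abs_mul]
    simp)
  simp only [add_zero] at h1
  have h2 : |x (t + n) - x (u + n)| ≤ 1 := by
    have := ht.x0 n le_rfl
    have := ht.x1 n le_rfl
    have := hu.x0 n le_rfl
    have := hu.x1 n le_rfl
    rw [abs_le]
    constructor <;> linarith
  have h3 : (x t - x u) * (((x t).den * (x u).den : ℕ) : ℚ)
      = (((x t).num * (x u).den - (x u).num * (x t).den : ℤ) : ℚ) := by
    push_cast
    have a1 := Rat.mul_den_eq_num (x t)
    have a2 := Rat.mul_den_eq_num (x u)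
    rw [← a1, ← a2]
    ring
  have hpos : (0 : ℚ) < (((x t).den * (x u).den : ℕ) : ℚ) := by
    have := (x t).den_pos
    have := (x u).den_pos
    positivity
  have h4 := one_le_abs_of_int h3 (mul_ne_zero (sub_ne_zero.2 hne) hpos.ne')
  rw [abs_mul, abs_of_pos hpos] at h4
  have h5 : (((x t).den * (x u).den : ℕ) : ℚ) < 2 ^ n := by exact_mod_cast hn
  have h6 : 0 < |x t - x u| := abs_pos.2 (sub_ne_zero.2 hne)
  nlinarith

/-- Two runs with the same signs and the same slope have the same offset. -/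
lemma rho_eq {K : ℕ → ℤ} {b : ℕ → Bool} {x : ℕ → ℚ} {t u n D : ℕ} {z : ℤ}
    (ht : Run K b x t n) (hu : Run K b x u n) (hb : ∀ i, i < n → b (t + i) = b (u + i))
    (hx : x t = x u) (hD : 0 < D) (hz : x t * D = z) (hn : 10 * D < 2 ^ n) :
    rho K x t = rho K x u := by
  by_contra hne
  have hxi : ∀ i, i ≤ n → x (t + i) = x (u + i) := by
    intro i hi
    induction i with
    | zero => simpa using hx
    | succ i ih =>
      simp only [← add_assoc]
      rw [ht.xs i (by omega), hu.xs i (by omega), hb i (by omega), ih (by omega)]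
  have h1 := dbl (fun i => |rho K x (t + i) - rho K x (u + i)|) n (fun i hi => by
    have e1 := ht.rs i hi
    have e2 := hu.rs i hi
    have e3 := hxi (i + 1) (by omega)
    simp only [← add_assoc] at e3 ⊢
    rw [e1, e2, hb i hi, e3]
    rw [show (sg (b (u + i)) : ℚ) * (2 * rho K x (t + i)) - 4 * x (u + i + 1) -
      ((sg (b (u + i)) : ℚ) * (2 * rho K x (u + i)) - 4 * x (u + i + 1)) =
      (sg (b (u + i)) : ℚ) * (2 * (rho K x (t + i) - rho K x (u + i))) by ring, abs_sg_mul,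
      abs_mul]
    simp)
  simp only [add_zero] at h1
  have h2 : |rho K x (t + n) - rho K x (u + n)| ≤ 10 := by
    have a1 := abs_le.1 (ht.r5 n le_rfl)
    have a2 := abs_le.1 (hu.r5 n le_rfl)
    rw [abs_le]
    constructor <;> linarith [a1.1, a1.2, a2.1, a2.2]
  have h3 : (rho K x t - rho K x u) * (D : ℚ)
      = (((K t - K u) * D - 4 * ((t : ℤ) - u) * z : ℤ) : ℚ) := by
    push_cast
    unfold rho
    rw [← hx, ← hz]
    ring
  have hpos : (0 : ℚ) < D := by exact_mod_cast hD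
  have h4 := one_le_abs_of_int h3 (mul_ne_zero (sub_ne_zero.2 hne) hpos.ne')
  rw [abs_mul, abs_of_pos hpos] at h4
  have h5 : 10 * (D : ℚ) < 2 ^ n := by exact_mod_cast hn
  have h6 : 0 < |rho K x t - rho K x u| := abs_pos.2 (sub_ne_zero.2 hne)
  nlinarith

lemma int_of_rho_eq {K : ℕ → ℤ} {x : ℕ → ℚ} {t u : ℕ} (hx : x t = x u)
    (hr : rho K x t = rho K x u) : x t * (4 * ((t : ℚ) - u)) = ((K t - K u : ℤ) : ℚ) := by
  unfold rho at hr
  rw [← hx] at hr
  push_cast
  linarith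

/-- Spacing of runs with the same signs. -/
lemma spacing {K : ℕ → ℤ} {b : ℕ → Bool} {x : ℕ → ℚ} {t u n : ℕ}
    (ht : Run K b x t n) (hu : Run K b x u n) (hb : ∀ i, i < n → b (t + i) = b (u + i))
    (hn : (x t).den * (x u).den < 2 ^ n) (hn' : 10 * (x t).den < 2 ^ n) (htu : u < t) :
    (x t).den ≤ 4 * (t - u) := by
  have hx := slope_eq ht hu hb hn
  have hr := rho_eq ht hu hb hx (x t).den_pos (Rat.mul_den_eq_num (x t)) hn'
  have h1 := int_of_rho_eq hx hr
  have h2 : x t = ((K t - K u : ℤ) : ℚ) / ((4 * (t - u) : ℕ) : ℤ) := by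
    have hp : (0 : ℚ) < (t : ℚ) - u := by
      have : (u : ℚ) < t := by exact_mod_cast htu
      linarith
    rw [← h1]
    push_cast [Nat.cast_sub htu.le]
    field_simp
  have h3 : ((x t).den : ℤ) ∣ ((4 * (t - u) : ℕ) : ℤ) := by
    rw [h2, ← Rat.divInt_eq_div]
    exact Rat.den_dvd _ _
  exact Nat.le_of_dvd (by omega) (Int.natCast_dvd_natCast.1 h3)

end Pool.Agent.P.MP_b0fa34_co
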