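import Mathlib
import Pool.Agent.P.MP_b0fa34_co.Run

/-!
A long repeated block of signs determines a rational slope.
-/

set_option autoImplicit false

namespace Pool.Agent.P.MP_b0fa34_co

/-- An orbit of the recursion on the time interval `[M, T]`. -/
structure Orb (K : ℕ → ℤ) (b : ℕ → Bool) (M T : ℕ) : Prop where
  ks : ∀ t, M ≤ t → t < T → K (t + 1) = sg (b t) * (2 * K t - (4 * (t : ℤ) + 3))
  k0 : ∀ t, M ≤ t → t ≤ T → 0 ≤ K t
  k1 : ∀ t, M ≤ t → t ≤ T → K t ≤ 4 * (t : ℤ) + 3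

/-- Difference of the orbit at lag `d`. -/
def dl (K : ℕ → ℤ) (t d i : ℕ) : ℤ := K (t + d + i) - K (t + i)

section
variable {K : ℕ → ℤ} {b : ℕ → Bool} {M T t d L G : ℕ}

lemma dl_step (h : Orb K b M T) (ht : M ≤ t) (hT : t + d + L ≤ T)
    (ha : ∀ i, i < L → b (t + i) = b (t + d + i)) (i : ℕ) (hi : i < L) :
    dl K t d (i + 1) = sg (b (t + i)) * (2 * dl K t d i - 4 * d) := by
  unfold dl
  rw [← add_assoc, ← add_assoc, h.ks (t + d + i) (by omega) (by omega),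
    h.ks (t + i) (by omega) (by omega), ← ha i hi]
  push_cast
  ring

lemma dl_bd (h : Orb K b M T) (ht : M ≤ t) (hT : t + d + L ≤ T) (hG : 4 * T + 3 < 2 ^ G)
    (i : ℕ) (hi : i ≤ L) : |dl K t d i| < 2 ^ G := by
  have a1 := h.k0 (t + d + i) (by omega) (by omega)
  have a2 := h.k1 (t + d + i) (by omega) (by omega)
  have a3 := h.k0 (t + i) (by omega) (by omega)
  have a4 := h.k1 (t + i) (by omega) (by omega)
  have a5 : (4 * T + 3 : ℤ) < 2 ^ G := by exact_mod_cast hG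
  have a6 : ((t + d + i : ℕ) : ℤ) ≤ T := by exact_mod_cast (show t + d + i ≤ T by omega)
  have a7 : ((t + i : ℕ) : ℤ) ≤ T := by exact_mod_cast (show t + i ≤ T by omega)
  unfold dl
  rw [abs_lt]
  constructor <;> linarith

lemma dl_le (h : Orb K b M T) (ht : M ≤ t) (hT : t + d + L ≤ T) (hG : 4 * T + 3 < 2 ^ G)
    (ha : ∀ i, i < L → b (t + i) = b (t + d + i)) (i : ℕ) (hi : i + G ≤ L) :
    |dl K t d i| ≤ 4 * d := by
  by_contra hc
  have h1 := dbl_int (fun j => |dl K t d (i + j)| - 4 * d) G (fun j hj => by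
    have e := dl_step h ht hT ha (i + j) (by omega)
    rw [← add_assoc, e, abs_sg_mul_int]
    have hd : (0 : ℤ) ≤ d := Int.natCast_nonneg d
    rcases abs_cases (dl K t d (i + j)) with h2 | h2 <;>
      rcases abs_cases (2 * dl K t d (i + j) - 4 * d) with h3 | h3 <;> linarith [h2.1, h3.1, h3.2])
  simp only [add_zero] at h1
  have h2 := dl_bd h ht hT hG (i + G) hi
  have hd : (0 : ℤ) ≤ d := Int.natCast_nonneg d
  have h3 : (0 : ℤ) < 2 ^ G := by positivity
  have h4 : 1 ≤ |dl K t d i| - 4 * d := by omega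
  nlinarith

lemma dl_mem (h : Orb K b M T) (ht : M ≤ t) (hT : t + d + L ≤ T) (hG : 4 * T + 3 < 2 ^ G)
    (ha : ∀ i, i < L → b (t + i) = b (t + d + i)) (i : ℕ) (hi : i + G + 1 ≤ L) :
    0 ≤ dl K t d i ∧ dl K t d i ≤ 4 * d := by
  have h1 := dl_le h ht hT hG ha (i + 1) (by omega)
  rw [dl_step h ht hT ha i (by omega), abs_sg_mul_int, abs_le] at h1
  constructor <;> linarith [h1.1, h1.2]

/-- The slope at lag `d`. -/
def sl (K : ℕ → ℤ) (t d i : ℕ) : ℚ := (dl K t d i : ℚ) / (4 * d)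

lemma sl_step (h : Orb K b M T) (ht : M ≤ t) (hT : t + d + L ≤ T) (hd : 0 < d)
    (ha : ∀ i, i < L → b (t + i) = b (t + d + i)) (i : ℕ) (hi : i < L) :
    sl K t d (i + 1) = (sg (b (t + i)) : ℚ) * (2 * sl K t d i - 1) := by
  unfold sl
  rw [dl_step h ht hT ha i hi]
  have : (d : ℚ) ≠ 0 := by positivity
  push_cast
  field_simp

lemma sl_mem (h : Orb K b M T) (ht : M ≤ t) (hT : t + d + L ≤ T) (hG : 4 * T + 3 < 2 ^ G)
    (hd : 0 < d) (ha : ∀ i, i < L → b (t + i) = b (t + d + i)) (i : ℕ) (hi : i + G + 1 ≤ L) :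
    0 ≤ sl K t d i ∧ sl K t d i ≤ 1 := by
  obtain ⟨h1, h2⟩ := dl_mem h ht hT hG ha i hi
  have h1' : (0 : ℚ) ≤ dl K t d i := by exact_mod_cast h1
  have h2' : (dl K t d i : ℚ) ≤ 4 * d := by exact_mod_cast h2
  have hd' : (0 : ℚ) < 4 * d := by positivity
  unfold sl
  exact ⟨by positivity, (div_le_one hd').2 h2'⟩

lemma sl_den (hd : 0 < d) : (sl K t d 0).den ≤ 4 * d := by
  have h2 : sl K t d 0 = ((dl K t d 0 : ℤ) : ℚ) / ((4 * d : ℕ) : ℤ) := by
    unfold sl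
    push_cast
    ring
  have h3 : ((sl K t d 0).den : ℤ) ∣ ((4 * d : ℕ) : ℤ) := by
    rw [h2, ← Rat.divInt_eq_div]
    exact Rat.den_dvd _ _
  exact Nat.le_of_dvd (by omega) (Int.natCast_dvd_natCast.1 h3)

lemma sl_rho (h : Orb K b M T) (ht : M ≤ t) (hT : t + d + L ≤ T) (hG : 4 * T + 3 < 2 ^ G)
    (hd : 0 < d) (ha : ∀ i, i < L → b (t + i) = b (t + d + i)) (hL : 2 * G + 1 ≤ L) :
    |(K t : ℚ) - (4 * (t : ℚ) + 3) * sl K t d 0| ≤ 5 := by
  have h1 := dbl (fun i => |(K (t + i) : ℚ) - (4 * ((t + i : ℕ) : ℚ) + 3) * sl K t d i| - 4) G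
    (fun i hi => by
      have e1 := sl_step h ht hT hd ha i (by omega)
      have e2 := h.ks (t + i) (by omega) (by omega)
      obtain ⟨m1, m2⟩ := sl_mem h ht hT hG hd ha (i + 1) (by omega)
      have e3 : (K (t + (i + 1)) : ℚ) - (4 * ((t + (i + 1) : ℕ) : ℚ) + 3) * sl K t d (i + 1)
          + 4 * sl K t d (i + 1) = (sg (b (t + i)) : ℚ) *
            (2 * ((K (t + i) : ℚ) - (4 * ((t + i : ℕ) : ℚ) + 3) * sl K t d i)) := by
        rw [← add_assoc, e2, e1]
        push_cast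
        ring
      have e4 := abs_sg_mul (b (t + i))
        (2 * ((K (t + i) : ℚ) - (4 * ((t + i : ℕ) : ℚ) + 3) * sl K t d i))
      rw [← e3, abs_mul] at e4
      have e5 := abs_add_le
        ((K (t + (i + 1)) : ℚ) - (4 * ((t + (i + 1) : ℕ) : ℚ) + 3) * sl K t d (i + 1))
        (4 * sl K t d (i + 1))
      rw [abs_of_nonneg (show 0 ≤ 4 * sl K t d (i + 1) by linarith)] at e5
      simp only [abs_two] at e4
      linarith)
  simp only [add_zero] at h1
  obtain ⟨m1, m2⟩ := sl_mem h ht hT hG hd ha G (by omega)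
  have a1 : (0 : ℚ) ≤ K (t + G) := by exact_mod_cast h.k0 (t + G) (by omega) (by omega)
  have a2 : (K (t + G) : ℚ) ≤ 4 * ((t + G : ℕ) : ℚ) + 3 := by
    exact_mod_cast h.k1 (t + G) (by omega) (by omega)
  have a3 : 4 * ((t + G : ℕ) : ℚ) + 3 < 2 ^ G := by
    exact_mod_cast (show 4 * (t + G) + 3 < 2 ^ G by omega)
  have a4 : |(K (t + G) : ℚ) - (4 * ((t + G : ℕ) : ℚ) + 3) * sl K t d G| < 2 ^ G := by
    have q0 : (0 : ℚ) ≤ 4 * ((t + G : ℕ) : ℚ) + 3 := by positivity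
    rw [abs_lt]
    constructor <;> nlinarith
  have a5 : (0 : ℚ) < 2 ^ G := by positivity
  by_contra hc
  have hc' : 1 < |(K t : ℚ) - (4 * (t : ℚ) + 3) * sl K t d 0| - 4 := by linarith [not_le.1 hc]
  nlinarith

lemma sl_next {d' : ℕ} (h : Orb K b M T) (ht : M ≤ t) (hT : t + d + L ≤ T)
    (hT' : t + 1 + d' + L ≤ T) (hG : 4 * T + 3 < 2 ^ G) (hd : 0 < d) (hd' : 0 < d')
    (ha : ∀ i, i < L → b (t + i) = b (t + d + i))
    (ha' : ∀ i, i < L → b (t + 1 + i) = b (t + 1 + d' + i)) (hL : 2 * G + 1 ≤ L) :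
    sl K (t + 1) d' 0 = (sg (b t) : ℚ) * (2 * sl K t d 0 - 1) := by
  have h1 := dbl_int (fun i => |(d' : ℤ) * dl K t d (i + 1) - d * dl K (t + 1) d' i|) (2 * G)
    (fun i hi => by
      have e1 := dl_step h ht hT ha (i + 1) (by omega)
      have e2 := dl_step h (show M ≤ t + 1 by omega) hT' ha' i (by omega)
      rw [e1, e2, show t + (i + 1) = t + 1 + i by ring,
        show (d' : ℤ) * (sg (b (t + 1 + i)) * (2 * dl K t d (i + 1) - 4 * d)) -
          d * (sg (b (t + 1 + i)) * (2 * dl K (t + 1) d' i - 4 * d')) =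
          sg (b (t + 1 + i)) * (2 * ((d' : ℤ) * dl K t d (i + 1) - d * dl K (t + 1) d' i)) by ring,
        abs_sg_mul_int, abs_mul]
      simp)
  simp only [zero_add] at h1
  have b1 := dl_bd h ht hT hG (2 * G + 1) hL
  have b2 := dl_bd h (show M ≤ t + 1 by omega) hT' hG (2 * G) (by omega)
  have b3 : ((d : ℤ) + d') < 2 ^ G := by exact_mod_cast (show d + d' < 2 ^ G by omega)
  have d0 : (0 : ℤ) < d := by exact_mod_cast hd
  have d0' : (0 : ℤ) < d' := by exact_mod_cast hd'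
  have b4 : |(d' : ℤ) * dl K t d (2 * G + 1) - d * dl K (t + 1) d' (2 * G)| < 2 ^ (2 * G) := by
    have c1 := abs_sub ((d' : ℤ) * dl K t d (2 * G + 1)) (d * dl K (t + 1) d' (2 * G))
    rw [abs_mul, abs_mul, abs_of_pos d0, abs_of_pos d0'] at c1
    have c2 : (0 : ℤ) < 2 ^ G := by positivity
    rw [two_mul G, pow_add, ← two_mul G]
    nlinarith
  have h0 : (d' : ℤ) * dl K t d 1 - d * dl K (t + 1) d' 0 = 0 := by
    by_contra hne
    have := Int.one_le_abs hne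
    have c2 : (0 : ℤ) < 2 ^ (2 * G) := by positivity
    nlinarith
  have e := sl_step h ht hT hd ha 0 (by omega)
  simp only [add_zero, zero_add] at e
  rw [← e]
  unfold sl
  have h0' : (d' : ℚ) * dl K t d 1 - d * dl K (t + 1) d' 0 = 0 := by exact_mod_cast h0
  have : (d : ℚ) ≠ 0 := by positivity
  have : (d' : ℚ) ≠ 0 := by positivity
  field_simp
  linarith

end

end Pool.Agent.P.MP_b0fa34_co
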