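import Mathlib
import Pool.Agent.P.MP_b0fa34_co.Run

/-!
A run whose slope has denominator `D` has length less than `5 D + 10`.
-/

set_option autoImplicit false

namespace Pool.Agent.P.MP_b0fa34_co

lemma Run.tent {K : ℕ → ℤ} {b : ℕ → Bool} {x : ℕ → ℚ} {t J : ℕ} (h : Run K b x t J)
    (i : ℕ) (hi : i < J) : x (t + i + 1) = |2 * x (t + i) - 1| := by
  have h1 := h.xs i hi
  have h2 := h.x0 (i + 1) (by omega)
  rw [← add_assoc] at h2
  rw [← abs_sg_mul (b (t + i)), ← h1, abs_of_nonneg h2]

lemma small {K : ℕ → ℤ} {b : ℕ → Bool} {x : ℕ → ℚ} {t J D : ℕ} (h : Run K b x t J)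
    (hD : 0 < D) (hz : ∃ z : ℤ, x t * D = z) (hJ : 5 * D + 10 ≤ J) : False := by
  classical
  have hT : ∀ i, i < J → x (t + (i + 1)) = |2 * x (t + i) - 1| := fun i hi => by
    rw [← add_assoc]; exact h.tent i hi
  have hDq : (0 : ℚ) < D := by exact_mod_cast hD
  have hint : ∀ i, i ≤ J → ∃ z : ℤ, x (t + i) * D = z := by
    intro i hi
    induction i with
    | zero => simpa using hz
    | succ i ih =>
      obtain ⟨z, hz⟩ := ih (by omega)
      refine ⟨|2 * z - D|, ?_⟩
      rw [hT i (by omega)]
      push_cast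
      rw [← hz, ← abs_of_pos hDq, ← abs_mul, abs_of_pos hDq]
      congr 1
      ring
  have hex : ∃ i', ∃ i, i < i' ∧ i' ≤ D + 1 ∧ x (t + i) = x (t + i') := by
    have hmap : ∀ i ∈ Finset.range (D + 2),
        x (t + i) ∈ (Finset.range (D + 1)).image (fun a : ℕ => (a : ℚ) / D) := by
      intro i hi
      have hi' : i ≤ J := by have := Finset.mem_range.1 hi; omega
      obtain ⟨z, hz⟩ := hint i hi'
      have h0 := h.x0 i hi'
      have h1 := h.x1 i hi'
      have z0 : (0 : ℚ) ≤ z := by rw [← hz]; positivity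
      have z1 : (z : ℚ) ≤ D := by rw [← hz]; nlinarith
      have z0' : 0 ≤ z := by exact_mod_cast z0
      have z1' : z ≤ D := by exact_mod_cast z1
      refine Finset.mem_image.2 ⟨z.toNat, Finset.mem_range.2 (by omega), ?_⟩
      have : ((z.toNat : ℕ) : ℚ) = z := by exact_mod_cast Int.toNat_of_nonneg z0'
      rw [this, ← hz]
      field_simp
    have hc : ((Finset.range (D + 1)).image (fun a : ℕ => (a : ℚ) / D)).card
        < (Finset.range (D + 2)).card := by
      refine lt_of_le_of_lt Finset.card_image_le ?_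
      simp
    obtain ⟨i, hi, j, hj, hij, he⟩ := Finset.exists_ne_map_eq_of_card_lt_of_maps_to hc hmap
    have hi := Finset.mem_range.1 hi
    have hj := Finset.mem_range.1 hj
    rcases lt_or_gt_of_ne hij with hl | hl
    · exact ⟨j, i, hl, by omega, he⟩
    · exact ⟨i, j, hl, by omega, he.symm⟩
  obtain ⟨i, hi1, hi2, hi3⟩ := Nat.find_spec hex
  have hmin : ∀ a c, a < c → c < Nat.find hex → x (t + a) ≠ x (t + c) := by
    intro a c hac hc he
    exact Nat.find_min hex hc ⟨a, hac, by omega, he⟩
  obtain ⟨k, hk⟩ : ∃ k, Nat.find hex = i + k := ⟨Nat.find hex - i, by omega⟩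
  rw [hk] at hi1 hi2 hi3 hmin
  have hk0 : 0 < k := by omega
  -- periodicity
  have hper : ∀ r, i + r + k ≤ J → x (t + (i + r)) = x (t + (i + r + k)) := by
    intro r hr
    induction r with
    | zero => simpa using hi3
    | succ r ih =>
      rw [show i + (r + 1) + k = (i + r + k) + 1 by ring, show i + (r + 1) = (i + r) + 1 by ring,
        hT _ (by omega), hT _ (by omega), ih (by omega)]
  have hone : ∀ a r, a + r ≤ J → x (t + a) = 1 → x (t + (a + r)) = 1 := by
    intro a r hr h1
    induction r with
    | zero => simpa using h1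
    | succ r ih =>
      rw [show a + (r + 1) = (a + r) + 1 by ring, hT _ (by omega), ih (by omega)]
      norm_num
  have hhalf : ∀ r, i + r + 2 * k ≤ J → 2 * x (t + (i + r)) - 1 ≠ 0 := by
    intro r hr h0
    have e1 : x (t + (i + r + 1)) = 0 := by rw [hT _ (by omega), h0]; simp
    have e2 : x (t + (i + r + 1 + 1)) = 1 := by rw [hT _ (by omega), e1]; norm_num
    have e3 := hone (i + r + 1 + 1) (2 * k - 2) (by omega) e2
    have e4 := hper r (by omega)
    have e5 := hper (r + k) (by omega)
    rw [show i + r + 1 + 1 + (2 * k - 2) = i + (r + k) + k by omega, ← e5,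
      show i + (r + k) = i + r + k by ring, ← e4] at e3
    rw [e3] at h0
    norm_num at h0
  have hsg : ∀ r, r < D + 4 → b (t + i + r) = b (t + (i + k) + r) := by
    intro r hr
    have e1 := h.xs (i + r) (by omega)
    have e2 := h.xs (i + r + k) (by omega)
    have e3 := hper r (by omega)
    have e4 := hper (r + 1) (by omega)
    have e5 := hhalf r (by omega)
    rw [show t + (i + r) + 1 = t + (i + (r + 1)) by ring, e4,
      show t + (i + (r + 1) + k) = t + (i + r + k) + 1 by ring, e2, ← e3] at e1
    have e6 := mul_right_cancel₀ e5 e1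
    have e7 : sg (b (t + (i + r + k))) = sg (b (t + (i + r))) := by exact_mod_cast e6
    rw [show t + i + r = t + (i + r) by ring, show t + (i + k) + r = t + (i + r + k) by ring]
    exact (sg_inj e7).symm
  obtain ⟨z, hz⟩ := hint i (by omega)
  have hpow : 10 * D < 2 ^ (D + 4) := by
    have := Nat.lt_two_pow_self (n := D)
    rw [pow_add]
    omega
  have hr := rho_eq (h.shift i (D + 4) (by omega)) (h.shift (i + k) (D + 4) (by omega)) hsg hi3
    hD hz hpow
  have h4 := int_of_rho_eq hi3 hr
  have hkq : (0 : ℚ) < k := by exact_mod_cast hk0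
  -- integrality of 4 k x
  have i4 : ∀ r, i + r ≤ J → ∃ a : ℤ, x (t + (i + r)) * (4 * k) = a := by
    intro r hr
    induction r with
    | zero =>
      refine ⟨-(K (t + i) - K (t + (i + k))), ?_⟩
      push_cast at h4 ⊢
      simp only [add_zero]
      linarith
    | succ r ih =>
      obtain ⟨a, ha⟩ := ih (by omega)
      refine ⟨|2 * a - 4 * k|, ?_⟩
      rw [show i + (r + 1) = (i + r) + 1 by ring, hT _ (by omega)]
      push_cast
      rw [← ha, ← abs_of_pos (show (0 : ℚ) < 4 * k by positivity), ← abs_mul,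
        abs_of_pos (show (0 : ℚ) < 4 * k by positivity)]
      congr 1
      ring
  have i2 : ∀ r, i + r + 1 ≤ J → ∃ a : ℤ, x (t + (i + r + 1)) * (2 * k) = a := by
    intro r hr
    obtain ⟨a, ha⟩ := i4 r (by omega)
    refine ⟨|a - 2 * k|, ?_⟩
    rw [hT _ (by omega)]
    push_cast
    rw [← ha, ← abs_of_pos (show (0 : ℚ) < 2 * k by positivity), ← abs_mul,
      abs_of_pos (show (0 : ℚ) < 2 * k by positivity)]
    congr 1
    ring
  have i1 : ∀ r, i + r + 2 ≤ J → ∃ a : ℤ, x (t + (i + r + 2)) * k = a := by
    intro r hr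
    obtain ⟨a, ha⟩ := i2 r (by omega)
    refine ⟨|a - k|, ?_⟩
    rw [show i + r + 2 = i + r + 1 + 1 by ring, hT _ (by omega)]
    push_cast
    rw [← ha, ← abs_of_pos hkq, ← abs_mul, abs_of_pos hkq]
    congr 1
    ring
  have i0 : ∀ r, i + r + 3 ≤ J → ∃ a : ℤ, x (t + (i + r + 3)) * k = a ∧ (a - k) % 2 = 0 := by
    intro r hr
    obtain ⟨a, ha⟩ := i1 r (by omega)
    refine ⟨|2 * a - k|, ?_, ?_⟩
    · rw [show i + r + 3 = i + r + 2 + 1 by ring, hT _ (by omega)]
      push_cast
      rw [← ha, ← abs_of_pos hkq, ← abs_mul, abs_of_pos hkq]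
      congr 1
      ring
    · rcases abs_cases (2 * a - (k : ℤ)) with h1 | h1 <;> omega
  have ic : ∀ r, r < k → ∃ a : ℕ, x (t + (i + r)) * k = a ∧ a ≤ k ∧ (a + k) % 2 = 0 := by
    intro r hr
    obtain ⟨a, ha, hp⟩ := i0 (r + 3 * k - 3) (by omega)
    have e1 := hper r (by omega)
    have e2 := hper (r + k) (by omega)
    have e3 := hper (r + k + k) (by omega)
    rw [show i + (r + 3 * k - 3) + 3 = i + (r + k + k) + k by omega, ← e3,
      show i + (r + k + k) = i + (r + k) + k by ring, ← e2,
      show i + (r + k) = i + r + k by ring, ← e1] at ha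
    have h0 := h.x0 (i + r) (by omega)
    have h1 := h.x1 (i + r) (by omega)
    have z0 : (0 : ℚ) ≤ a := by rw [← ha]; positivity
    have z1 : (a : ℚ) ≤ k := by rw [← ha]; nlinarith
    have z0' : 0 ≤ a := by exact_mod_cast z0
    have z1' : a ≤ k := by exact_mod_cast z1
    refine ⟨a.toNat, ?_, by omega, by omega⟩
    rw [ha]
    exact_mod_cast (Int.toNat_of_nonneg z0').symm
  choose! A hA using ic
  have hinj : ∀ r s, r < k → s < k → A r = A s → r = s := by
    intro r s hr hs he
    have e : x (t + (i + r)) = x (t + (i + s)) := by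
      have e1 := (hA r hr).1
      have e2 := (hA s hs).1
      rw [he, ← e2] at e1
      exact mul_right_cancel₀ hkq.ne' e1
    by_contra hne
    rcases lt_or_gt_of_ne hne with hl | hl
    · exact hmin _ _ (by omega) (by omega) e
    · exact hmin _ _ (by omega) (by omega) e.symm
  have hk2 : k ≤ k / 2 + 1 := by
    have := Finset.card_le_card_of_injOn (s := Finset.range k) (t := Finset.range (k / 2 + 1))
      (fun r => A r / 2) (fun r hr => by
        have := hA r (Finset.mem_range.1 hr)
        simp only [Finset.coe_range, Set.mem_Iio]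
        omega)
      (fun r hr s hs he => by
        have hr' : r < k := by simpa using hr
        have hs' : s < k := by simpa using hs
        have a1 := hA r hr'
        have a2 := hA s hs'
        apply hinj r s hr' hs'
        simp only at he
        omega)
    simpa using this
  have hk3 : k = 1 ∨ k = 2 := by omega
  rcases hk3 with rfl | rfl
  · obtain ⟨a1, a2, a3⟩ := hA 0 (by omega)
    have a4 : A 0 = 1 := by omega
    rw [a4] at a1
    have x1 : x (t + i) = 1 := by simpa using a1
    have x2 : x (t + i + 1) = 1 := by rw [add_assoc, ← hi3, x1]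
    have e1 := h.xs i (by omega)
    have e2 := h.rs i (by omega)
    rw [x1, x2] at e1
    have e3 : (sg (b (t + i)) : ℚ) = 1 := by linarith
    rw [e3, x2, add_assoc t i 1, ← hr] at e2
    have e4 : rho K x (t + i) = 4 := by linarith
    have e5 := h.k1 i (by omega)
    have e6 : ((K (t + i) : ℤ) : ℚ) ≤ 4 * ((t + i : ℕ) : ℚ) + 3 := by exact_mod_cast e5
    unfold rho at e4
    rw [x1] at e4
    linarith
  · obtain ⟨a1, a2, a3⟩ := hA 0 (by omega)
    obtain ⟨c1, c2, c3⟩ := hA 1 (by omega)
    have hne : A 0 ≠ A 1 := fun he => by have := hinj 0 1 (by omega) (by omega) he; omega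
    have hne' := hmin i (i + 1) (by omega) (by omega)
    rcases (show A 0 = 2 ∨ A 1 = 2 by omega) with h2 | h2
    · rw [h2] at a1
      have x1 : x (t + i) = 1 := by
        simp only [add_zero] at a1
        push_cast at a1
        linarith
      exact hne' (by rw [hone i 1 (by omega) x1, x1])
    · rw [h2] at c1
      have x1 : x (t + (i + 1)) = 1 := by
        push_cast at c1
        linarith
      have x2 := hone (i + 1) 1 (by omega) x1
      rw [show i + 1 + 1 = i + 2 by ring, ← hi3] at x2
      exact hne' (by rw [x1, x2])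

end Pool.Agent.P.MP_b0fa34_co
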