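import Mathlib
import Pool.Agent.P.MP_b0fa34_co.Small
import Pool.Agent.P.MP_b0fa34_co.Slope

/-!
Counting blocks of signs: at least `2 ^ (n / 2)` blocks of length `n` occur.
-/

set_option autoImplicit false

namespace Pool.Agent.P.MP_b0fa34_co

open Filter Topology

open Classical in
/-- Blocks of length `n` that occur inside the time interval `[M, T]`. -/
noncomputable def blocks (b : ℕ → Bool) (M T n : ℕ) : Finset (Fin n → Bool) :=
  Finset.univ.filter fun w => ∃ m, M ≤ m ∧ m + n ≤ T ∧ ∀ i : Fin n, w i = b (m + i)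

lemma count_le (b : ℕ → Bool) (M T n j g N : ℕ) (hn : 0 < n) (hg : 0 < g) (S : Finset ℕ)
    (h1 : ∀ t ∈ S, M ≤ t ∧ t < M + N ∧ t + j * n ≤ T)
    (h2 : ∀ t ∈ S, ∀ u ∈ S, u < t → (∀ i, i < j * n → b (t + i) = b (u + i)) → g ≤ t - u) :
    S.card ≤ (blocks b M T n).card ^ j * (N / g + 1) := by
  classical
  have := Finset.card_le_card_of_injOn (s := S)
    (t := (Fintype.piFinset fun _ : Fin j => blocks b M T n) ×ˢ Finset.range (N / g + 1))
    (fun t => ((fun a : Fin j => fun i : Fin n => b (t + a * n + i)), (t - M) / g))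
    (fun t ht => by
      obtain ⟨a1, a2, a3⟩ := h1 t ht
      simp only [Finset.coe_product, Set.mem_prod, Finset.mem_coe, Fintype.mem_piFinset,
        Finset.mem_range]
      refine ⟨fun a => ?_, ?_⟩
      · simp only [blocks, Finset.mem_filter, Finset.mem_univ, true_and]
        refine ⟨t + a * n, by omega, ?_, fun i => rfl⟩
        have : (a + 1) * n ≤ j * n := Nat.mul_le_mul_right n a.2
        rw [add_mul] at this
        omega
      · exact Nat.lt_succ_of_le (Nat.div_le_div_right (by omega)))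
    (fun t ht u hu he => by
      simp only [Prod.mk.injEq] at he
      obtain ⟨e1, e2⟩ := he
      have hag : ∀ i, i < j * n → b (t + i) = b (u + i) := by
        intro i hi
        have a1 : i / n < j := (Nat.div_lt_iff_lt_mul hn).2 hi
        have a2 := congrFun (congrFun e1 ⟨i / n, a1⟩) ⟨i % n, Nat.mod_lt _ hn⟩
        simp only [add_assoc, Nat.div_add_mod'] at a2
        exact a2
      have key : ∀ t u, M ≤ u → u < t → g ≤ t - u → (u - M) / g < (t - M) / g := by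
        intro t u hu hut hgt
        have : (u - M + g) / g ≤ (t - M) / g := Nat.div_le_div_right (by omega)
        rw [Nat.add_div_right _ hg] at this
        omega
      by_contra hne
      rcases lt_or_gt_of_ne hne with hl | hl
      · have := key u t (h1 t ht).1 hl (h2 u hu t ht hl fun i hi => (hag i hi).symm)
        omega
      · have := key t u (h1 u hu).1 hl (h2 t ht u hu hl hag)
        omega)
  simpa [Finset.card_product, Fintype.card_piFinset] using this

/-- The combinatorial core, with all parameters explicit. -/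
lemma core_ineq {K : ℕ → ℤ} {b : ℕ → Bool} {M n s j0 B J : ℕ} (hn : 0 < n) (hB : B = 2 ^ n)
    (h : Orb K b M (2 * M)) (hM1 : B ^ (s + 2) ≤ M) (hM2 : M < B ^ (s + 3)) (hj0 : 3 ≤ j0)
    (hJ : J = (2 * s + 15) * n + (5 * B ^ j0 + 10)) (hJN : J ≤ B ^ s) :
    B ^ s ≤ (J + 1) * (blocks b M (2 * M) n).card ^ (2 * s + 15) +
      ∑ j ∈ Finset.Ico j0 (s + 4),
        (blocks b M (2 * M) n).card ^ (2 * j + 1) * (2 * B ^ (s + 3 - j)) := by
  classical
  have hB2 : 2 ≤ B := by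
    rw [hB]
    calc 2 = 2 ^ 1 := by norm_num
      _ ≤ 2 ^ n := Nat.pow_le_pow_right (by norm_num) hn
  have hpw : ∀ a c, 2 ^ c * B ^ a ≤ B ^ (a + c) := fun a c => by
    rw [pow_add, mul_comm]
    exact Nat.mul_le_mul_left _ (Nat.pow_le_pow_left hB2 c)
  have hBn : ∀ a, 2 ^ (a * n) = B ^ a := fun a => by rw [hB, ← pow_mul, mul_comm]
  set N := B ^ s with hN
  set L := (2 * s + 15) * n with hL
  set G := (s + 7) * n with hG
  set P := (blocks b M (2 * M) n).card with hP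
  have hN4 : 4 * N ≤ M := by have := hpw s 2; omega
  have hN0 : 0 < N := by positivity
  have hGT : 4 * (2 * M) + 3 < 2 ^ G := by
    rw [hG, hBn]
    have := hpw (s + 3) 4
    rw [show s + 3 + 4 = s + 7 by ring] at this
    omega
  have hLG : 2 * G + 1 ≤ L := by
    have : L = 2 * G + n := by rw [hL, hG]; ring
    omega
  let Rec : ℕ → Prop := fun t =>
    ∃ d, 0 < d ∧ t + d < M + 2 * N ∧ ∀ i, i < L → b (t + i) = b (t + d + i)
  have hch : ∀ t, ∃ d, Rec t →
      0 < d ∧ t + d < M + 2 * N ∧ ∀ i, i < L → b (t + i) = b (t + d + i) := by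
    intro t
    by_cases ht : Rec t
    · obtain ⟨d, hd⟩ := ht
      exact ⟨d, fun _ => hd⟩
    · exact ⟨0, fun h => absurd h ht⟩
  choose dd hdd using hch
  let x : ℕ → ℚ := fun t => sl K t (dd t) 0
  have hrun : ∀ t, M ≤ t → (∀ i, i ≤ J → Rec (t + i)) → Run K b x t J := by
    intro t ht hr
    refine ⟨fun i hi => ?_, fun i hi => ?_, fun i hi => ?_, fun i hi => ?_, fun i hi => ?_,
      fun i hi => ?_⟩
    · obtain ⟨a1, a2, a3⟩ := hdd _ (hr i hi)
      exact (sl_mem h (by omega) (by omega) hGT a1 a3 0 (by omega)).1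
    · obtain ⟨a1, a2, a3⟩ := hdd _ (hr i hi)
      exact (sl_mem h (by omega) (by omega) hGT a1 a3 0 (by omega)).2
    · obtain ⟨a1, a2, a3⟩ := hdd _ (hr i hi)
      exact sl_rho h (by omega) (by omega) hGT a1 a3 hLG
    · obtain ⟨a1, a2, a3⟩ := hdd _ (hr i hi.le)
      obtain ⟨c1, c2, c3⟩ := hdd (t + i + 1) (hr (i + 1) hi)
      exact sl_next h (by omega) (by omega) (by omega) hGT a1 c1 a3 c3 hLG
    · obtain ⟨a1, a2, a3⟩ := hdd _ (hr i hi.le)
      exact h.ks _ (by omega) (by omega)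
    · obtain ⟨a1, a2, a3⟩ := hdd _ (hr i hi)
      exact h.k1 _ (by omega) (by omega)
  let NR : Finset ℕ := (Finset.Ico M (M + 2 * N)).filter fun t => ¬ Rec t
  have hNR : NR.card ≤ P ^ (2 * s + 15) := by
    have := count_le b M (2 * M) n (2 * s + 15) (2 * N + 1) (2 * N) hn (by omega) NR
      (fun t ht => by
        have := Finset.mem_Ico.1 (Finset.mem_filter.1 ht).1
        omega)
      (fun t ht u hu hut hag => by
        have a1 := Finset.mem_Ico.1 (Finset.mem_filter.1 ht).1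
        refine absurd ⟨t - u, by omega, by omega, fun i hi => ?_⟩ (Finset.mem_filter.1 hu).2
        rw [show u + (t - u) = t by omega]
        exact (hag i hi).symm)
    rw [Nat.div_eq_of_lt (by omega)] at this
    simpa using this
  let C : ℕ → Finset ℕ := fun j => (Finset.Ico M (M + N)).filter fun t =>
    (∀ i, i ≤ J → Rec (t + i)) ∧ Nat.clog B (x t).den = j
  have hC : ∀ j ∈ Finset.Ico j0 (s + 4), (C j).card ≤ P ^ (2 * j + 1) * (2 * B ^ (s + 3 - j)) := by
    intro j hj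
    have hj := Finset.mem_Ico.1 hj
    have hjL : (2 * j + 1) * n ≤ L := Nat.mul_le_mul_right n (by omega)
    have := count_le b M (2 * M) n (2 * j + 1) (B ^ (j - 3)) N hn (by positivity) (C j)
      (fun t ht => by
        have := Finset.mem_Ico.1 (Finset.mem_filter.1 ht).1
        omega)
      (fun t ht u hu hut hag => by
        have a1 := Finset.mem_Ico.1 (Finset.mem_filter.1 ht).1
        have a2 := Finset.mem_Ico.1 (Finset.mem_filter.1 hu).1
        obtain ⟨a3, a4⟩ := (Finset.mem_filter.1 ht).2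
        obtain ⟨a5, a6⟩ := (Finset.mem_filter.1 hu).2
        have r1 := (hrun t a1.1 a3).shift 0 ((2 * j + 1) * n) (by omega)
        have r2 := (hrun u a2.1 a5).shift 0 ((2 * j + 1) * n) (by omega)
        rw [add_zero] at r1 r2
        have d1 : (x t).den ≤ B ^ j := by rw [← a4]; exact Nat.le_pow_clog (by omega) _
        have d2 : (x u).den ≤ B ^ j := by rw [← a6]; exact Nat.le_pow_clog (by omega) _
        have d3 : B ^ (j - 1) < (x t).den := by
          rw [← Nat.lt_clog_iff_pow_lt (by omega), a4]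
          omega
        have p0 : 0 < B ^ j := by positivity
        have p1 : 2 ^ 1 * B ^ (j + j) ≤ B ^ (j + j + 1) := hpw _ 1
        have p2 : 2 ^ (j + 1) * B ^ j ≤ B ^ (j + (j + 1)) := hpw _ _
        have p3 : 2 ^ 4 ≤ 2 ^ (j + 1) := Nat.pow_le_pow_right (by norm_num) (by omega)
        have p4 : 2 ^ 2 * B ^ (j - 3) ≤ B ^ (j - 3 + 2) := hpw _ _
        rw [show j - 3 + 2 = j - 1 by omega] at p4
        have sp := spacing r1 r2 hag
          (by
            rw [hBn, show 2 * j + 1 = j + j + 1 by ring]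
            have := Nat.mul_le_mul d1 d2
            rw [← pow_add] at this
            have : 0 < B ^ (j + j) := by positivity
            omega)
          (by
            rw [hBn, show 2 * j + 1 = j + (j + 1) by ring]
            nlinarith)
          hut
        omega)
    refine this.trans (Nat.mul_le_mul_left _ ?_)
    rw [hN, Nat.pow_div (by omega) (by omega), show s - (j - 3) = s + 3 - j by omega]
    have : 0 < B ^ (s + 3 - j) := by positivity
    omega
  have hcov : Finset.Ico M (M + N) ⊆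
      ((Finset.range (J + 1)).biUnion fun i => NR.image fun t => t - i) ∪
        (Finset.Ico j0 (s + 4)).biUnion C := by
    intro t ht
    have a1 := Finset.mem_Ico.1 ht
    by_cases hb : ∀ i, i ≤ J → Rec (t + i)
    · refine Finset.mem_union_right _ (Finset.mem_biUnion.2 ⟨Nat.clog B (x t).den, ?_,
        Finset.mem_filter.2 ⟨ht, hb, rfl⟩⟩)
      obtain ⟨c1, c2, c3⟩ := hdd t (hb 0 (by omega))
      have d1 : (x t).den ≤ 4 * dd t := sl_den c1
      have d2 := hpw s 3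
      have d3 : B ^ j0 < (x t).den := by
        by_contra hc
        exact small (hrun t a1.1 hb) (x t).den_pos ⟨_, Rat.mul_den_eq_num (x t)⟩ (by omega)
      refine Finset.mem_Ico.2 ⟨?_, ?_⟩
      · exact ((Nat.lt_clog_iff_pow_lt (by omega)).2 d3).le
      · exact Nat.lt_succ_of_le ((Nat.clog_le_iff_le_pow (by omega)).2 (by omega))
    · push Not at hb
      obtain ⟨i, hi, hr⟩ := hb
      refine Finset.mem_union_left _ (Finset.mem_biUnion.2 ⟨i, Finset.mem_range.2 (by omega),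
        Finset.mem_image.2 ⟨t + i, Finset.mem_filter.2 ⟨Finset.mem_Ico.2 ⟨by omega, by omega⟩, hr⟩,
          by omega⟩⟩)
  have c1 := (Finset.card_le_card hcov).trans (Finset.card_union_le _ _)
  have c2 : ((Finset.range (J + 1)).biUnion fun i => NR.image fun t => t - i).card
      ≤ (J + 1) * P ^ (2 * s + 15) := by
    refine Finset.card_biUnion_le.trans ?_
    have := Finset.sum_le_card_nsmul (Finset.range (J + 1))
      (fun i => (NR.image fun t => t - i).card) (P ^ (2 * s + 15))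
      (fun i _ => Finset.card_image_le.trans hNR)
    simpa using this
  have c3 := (Finset.card_biUnion_le (s := Finset.Ico j0 (s + 4)) (t := C)).trans
    (Finset.sum_le_sum hC)
  rw [Nat.card_Ico, show M + N - M = N by omega] at c1
  omega

theorem core (n : ℕ) (hn : 0 < n) : ∃ M0 : ℕ, ∀ M, M0 ≤ M → ∀ (K : ℕ → ℤ) (b : ℕ → Bool),
    Orb K b M (2 * M) → 2 ^ n ≤ (blocks b M (2 * M) n).card ^ 2 := by
  obtain ⟨B, hB⟩ : ∃ B, B = 2 ^ n := ⟨_, rfl⟩
  have hB2 : 2 ≤ B := by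
    rw [hB]
    calc 2 = 2 ^ 1 := by norm_num
      _ ≤ 2 ^ n := Nat.pow_le_pow_right (by norm_num) hn
  have hBr : (2 : ℝ) ≤ B := by exact_mod_cast hB2
  obtain ⟨l, hl⟩ : ∃ l : ℝ, l = ((B : ℝ) - 1) / B := ⟨_, rfl⟩
  have hlB : l * B = B - 1 := by rw [hl]; field_simp
  have l0 : 0 ≤ l := by rw [hl]; apply div_nonneg <;> linarith
  have l1 : l < 1 := by rw [hl, div_lt_one (by linarith)]; linarith
  have t1 : Tendsto (fun s : ℕ => l ^ s) atTop (𝓝 0) := tendsto_pow_atTop_nhds_zero_of_lt_one l0 l1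
  have t2 : Tendsto (fun s : ℕ => (s : ℝ) * l ^ s) atTop (𝓝 0) :=
    tendsto_self_mul_const_pow_of_lt_one l0 l1
  obtain ⟨j0, hj0, hj1⟩ : ∃ j0 : ℕ, 3 ≤ j0 ∧ 2 * (B : ℝ) ^ 5 * l ^ j0 ≤ 1 / 4 := by
    have t3 : Tendsto (fun s : ℕ => 2 * (B : ℝ) ^ 5 * l ^ s) atTop (𝓝 0) := by
      simpa using t1.const_mul (2 * (B : ℝ) ^ 5)
    exact ((eventually_ge_atTop 3).and
      (t3.eventually (eventually_le_nhds (show (0 : ℝ) < 1 / 4 by norm_num)))).exists
  obtain ⟨s0, hs0⟩ : ∃ s0 : ℕ, ∀ s, s0 ≤ s →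
      ((((2 * s + 15) * n + (5 * B ^ j0 + 10) : ℕ) : ℝ) + 1) * l ^ s * (B : ℝ) ^ 15 ≤ 1 / 4 := by
    have t3 : Tendsto (fun s : ℕ =>
        ((((2 * s + 15) * n + (5 * B ^ j0 + 10) : ℕ) : ℝ) + 1) * l ^ s * (B : ℝ) ^ 15)
        atTop (𝓝 0) := by
      have := ((t2.const_mul (2 * (n : ℝ))).add
        (t1.const_mul (15 * (n : ℝ) + (5 * (B : ℝ) ^ j0 + 10) + 1))).mul_const ((B : ℝ) ^ 15)
      simp only [mul_zero, add_zero, zero_mul] at this
      refine this.congr fun s => ?_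
      push_cast
      ring
    exact eventually_atTop.1
      (t3.eventually (eventually_le_nhds (show (0 : ℝ) < 1 / 4 by norm_num)))
  refine ⟨B ^ (s0 + 2), fun M hM K b h => ?_⟩
  by_contra hc
  have hM0 : M ≠ 0 := by
    have : 0 < B ^ (s0 + 2) := by positivity
    omega
  have hlog : s0 + 2 ≤ Nat.log B M := (Nat.le_log_iff_pow_le (by omega) hM0).2 hM
  obtain ⟨s, hs⟩ : ∃ s, Nat.log B M = s + 2 := ⟨Nat.log B M - 2, by omega⟩
  have hM1 : B ^ (s + 2) ≤ M := by rw [← hs]; exact Nat.pow_log_le_self B hM0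
  have hM2 : M < B ^ (s + 3) := by
    have := Nat.lt_pow_succ_log_self (b := B) (by omega) M
    rwa [hs] at this
  have hs1 := hs0 s (by omega)
  obtain ⟨J, hJ⟩ : ∃ J, J = (2 * s + 15) * n + (5 * B ^ j0 + 10) := ⟨_, rfl⟩
  rw [← hJ] at hs1
  have hBs : (0 : ℝ) < (B : ℝ) ^ s := by positivity
  have hls : 1 ≤ l ^ s * (B : ℝ) ^ s := by
    rw [← mul_pow, hlB]
    exact one_le_pow₀ (by linarith)
  have hB15 : (1 : ℝ) ≤ (B : ℝ) ^ 15 := one_le_pow₀ (by linarith)
  have hJ0 : (0 : ℝ) ≤ J := Nat.cast_nonneg J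
  have hJN : J ≤ B ^ s := by
    have a1 : ((J : ℝ) + 1) * 1 * 1 ≤ ((J : ℝ) + 1) * (l ^ s * (B : ℝ) ^ s) * (B : ℝ) ^ 15 := by
      gcongr
    have a2 : (J : ℝ) ≤ (B : ℝ) ^ s := by nlinarith
    exact_mod_cast a2
  have key := core_ineq hn hB h hM1 hM2 hj0 hJ hJN
  obtain ⟨P, hP⟩ : ∃ P, P = (blocks b M (2 * M) n).card := ⟨_, rfl⟩
  rw [← hP] at key hc
  rw [← hB] at hc
  have p2 : (P : ℝ) ^ 2 ≤ l * B := by
    rw [hlB]
    have : P ^ 2 + 1 ≤ B := by omega
    have : (P : ℝ) ^ 2 + 1 ≤ B := by exact_mod_cast this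
    linarith
  have p0 : (0 : ℝ) ≤ P := Nat.cast_nonneg P
  have p1 : (P : ℝ) ≤ B := by nlinarith
  have p3 : ∀ j : ℕ, (P : ℝ) ^ (2 * j) ≤ l ^ j * (B : ℝ) ^ j := fun j => by
    rw [pow_mul, ← mul_pow]
    gcongr
  have keyr : (B : ℝ) ^ s ≤ ((J : ℝ) + 1) * (P : ℝ) ^ (2 * s + 15) +
      ∑ j ∈ Finset.Ico j0 (s + 4), (P : ℝ) ^ (2 * j + 1) * (2 * (B : ℝ) ^ (s + 3 - j)) := by
    exact_mod_cast key
  have q1 : ((J : ℝ) + 1) * (P : ℝ) ^ (2 * s + 15) ≤ 1 / 4 * (B : ℝ) ^ s := by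
    calc ((J : ℝ) + 1) * (P : ℝ) ^ (2 * s + 15)
        ≤ ((J : ℝ) + 1) * ((l ^ s * (B : ℝ) ^ s) * (B : ℝ) ^ 15) := by
          rw [pow_add]
          gcongr
          exact p3 s
      _ = (((J : ℝ) + 1) * l ^ s * (B : ℝ) ^ 15) * (B : ℝ) ^ s := by ring
      _ ≤ 1 / 4 * (B : ℝ) ^ s := by gcongr
  have q2 : ∑ j ∈ Finset.Ico j0 (s + 4), (P : ℝ) ^ (2 * j + 1) * (2 * (B : ℝ) ^ (s + 3 - j))
      ≤ ∑ j ∈ Finset.Ico j0 (s + 4), (2 * (B : ℝ) ^ 4 * (B : ℝ) ^ s) * l ^ j := by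
    refine Finset.sum_le_sum fun j hj => ?_
    have hj := Finset.mem_Ico.1 hj
    have e : (B : ℝ) ^ j * (B : ℝ) ^ (s + 3 - j) = (B : ℝ) ^ s * (B : ℝ) ^ 3 := by
      rw [← pow_add, ← pow_add, show j + (s + 3 - j) = s + 3 by omega]
    calc (P : ℝ) ^ (2 * j + 1) * (2 * (B : ℝ) ^ (s + 3 - j))
        ≤ ((l ^ j * (B : ℝ) ^ j) * B) * (2 * (B : ℝ) ^ (s + 3 - j)) := by
          rw [pow_succ]
          gcongr
          exact p3 j
      _ = 2 * B * l ^ j * ((B : ℝ) ^ j * (B : ℝ) ^ (s + 3 - j)) := by ring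
      _ = _ := by rw [e]; ring
  rw [← Finset.mul_sum] at q2
  have q3 : ∑ j ∈ Finset.Ico j0 (s + 4), l ^ j ≤ l ^ j0 * B := by
    refine (geom_sum_Ico_le_of_lt_one l0 l1).trans (le_of_eq ?_)
    have : 1 - l = 1 / B := by rw [hl]; field_simp; ring
    rw [this]
    field_simp
  have q4 : (2 * (B : ℝ) ^ 4 * (B : ℝ) ^ s) * ∑ j ∈ Finset.Ico j0 (s + 4), l ^ j
      ≤ 1 / 4 * (B : ℝ) ^ s := by
    calc (2 * (B : ℝ) ^ 4 * (B : ℝ) ^ s) * ∑ j ∈ Finset.Ico j0 (s + 4), l ^ j
        ≤ (2 * (B : ℝ) ^ 4 * (B : ℝ) ^ s) * (l ^ j0 * B) := by gcongr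
      _ = (2 * (B : ℝ) ^ 5 * l ^ j0) * (B : ℝ) ^ s := by ring
      _ ≤ 1 / 4 * (B : ℝ) ^ s := by gcongr
  linarith

end Pool.Agent.P.MP_b0fa34_co
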